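import Pool.Agent.Leo4.Stmts

set_option autoImplicit false

open MeasureTheory

namespace Pool.Agent.Leo4.H57

open Pool.Agent.Leo4

private theorem xid (a b c d : ℝ) :
    rX (a, b, c, d) ^ 2 + a ^ 2 * rM (a, b, c, d) = 4 * rP (a, b, c, d) ^ 3 := by
  unfold rX rM rP
  ring

private theorem single (C η a b c d : ℝ) (hC : 0 < C) (hη : 0 < η) (ha : |a| ≤ C)
    (ha' : η / C ≤ |a|) (hb : |b| ≤ 3 * C) (hP0 : 0 ≤ rP (a, b, c, d)) (hP2 : rP (a, b, c, d) ≤ 2)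
    (hM0 : 0 ≤ rM (a, b, c, d)) :
    |c| ≤ (9 * C ^ 2 + 2) * (C / η) ∧
    |d| ≤ (6 + 54 * C ^ 3 + 9 * C ^ 2 * ((9 * C ^ 2 + 2) * (C / η))) * (C / η) ^ 2 := by
  have hk : 0 < η / C := by positivity
  have hapos : 0 < |a| := lt_of_lt_of_le hk ha'
  have hinv : 1 / |a| ≤ C / η := by
    rw [div_le_div_iff₀ hapos hη]
    rw [div_le_iff₀ hC] at ha'
    linarith
  have hc : |c| ≤ (9 * C ^ 2 + 2) * (C / η) := by
    have e : a * c = b ^ 2 - rP (a, b, c, d) := by unfold rP; ring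
    have h1 : |a| * |c| ≤ 9 * C ^ 2 + 2 := by
      rw [← abs_mul, e]
      have h2 : b ^ 2 ≤ 9 * C ^ 2 := by
        have := sq_le_sq' (by linarith [abs_nonneg b] : -(3 * C) ≤ |b|) hb
        rw [sq_abs] at this
        nlinarith
      rw [abs_le]
      constructor
      · nlinarith [sq_nonneg b, sq_nonneg C]
      · linarith
    calc |c| = (|a| * |c|) * (1 / |a|) := by field_simp
      _ ≤ (9 * C ^ 2 + 2) * (C / η) := by
          apply mul_le_mul h1 hinv (by positivity) (by positivity)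
  refine ⟨hc, ?_⟩
  set Bc := (9 * C ^ 2 + 2) * (C / η) with hBc
  have hBc0 : 0 ≤ Bc := by positivity
  have hX : |rX (a, b, c, d)| ≤ 6 := by
    have h1 := xid a b c d
    have h2 : rX (a, b, c, d) ^ 2 ≤ 36 := by
      have : rP (a, b, c, d) ^ 3 ≤ 2 ^ 3 := pow_le_pow_left₀ hP0 hP2 3
      nlinarith [mul_nonneg (sq_nonneg a) hM0]
    by_contra hc6
    push Not at hc6
    nlinarith [sq_abs (rX (a, b, c, d))]
  have e : a ^ 2 * d = rX (a, b, c, d) - 2 * b ^ 3 + 3 * a * b * c := by unfold rX; ring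
  have h1 : |a| ^ 2 * |d| ≤ 6 + 54 * C ^ 3 + 9 * C ^ 2 * Bc := by
    rw [← abs_pow, ← abs_mul, e]
    have h3 : |2 * b ^ 3| ≤ 54 * C ^ 3 := by
      rw [abs_mul, abs_pow, abs_two]
      have : |b| ^ 3 ≤ (3 * C) ^ 3 := pow_le_pow_left₀ (abs_nonneg b) hb 3
      nlinarith
    have h4 : |3 * a * b * c| ≤ 9 * C ^ 2 * Bc := by
      rw [abs_mul, abs_mul, abs_mul]
      have h5 : |(3 : ℝ)| * |a| * |b| ≤ 3 * C * (3 * C) := by
        rw [show |(3 : ℝ)| = 3 by norm_num]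
        apply mul_le_mul _ hb (abs_nonneg b) (by positivity)
        linarith
      calc |(3 : ℝ)| * |a| * |b| * |c| ≤ (3 * C * (3 * C)) * Bc :=
            mul_le_mul h5 hc (abs_nonneg c) (by positivity)
        _ = 9 * C ^ 2 * Bc := by ring
    calc |rX (a, b, c, d) - 2 * b ^ 3 + 3 * a * b * c|
        ≤ |rX (a, b, c, d) - 2 * b ^ 3| + |3 * a * b * c| := abs_add_le _ _
      _ ≤ (|rX (a, b, c, d)| + |2 * b ^ 3|) + |3 * a * b * c| := by
          gcongr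
          exact abs_sub _ _
      _ ≤ (6 + 54 * C ^ 3) + 9 * C ^ 2 * Bc := by gcongr
  calc |d| = (|a| ^ 2 * |d|) * (1 / |a|) ^ 2 := by field_simp
    _ ≤ (6 + 54 * C ^ 3 + 9 * C ^ 2 * Bc) * (C / η) ^ 2 := by
        apply mul_le_mul h1 _ (by positivity) (by positivity)
        exact pow_le_pow_left₀ (by positivity) hinv 2

private theorem bal_bound (x y : ℝ) (h : Bal x y) (hxy : x * y ≤ 1) : x ≤ 2 ∧ y ≤ 2 := by
  obtain ⟨hx, hy, h1, h2⟩ := h
  have hg : g ^ 2 ≤ 2.62 := by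
    rw [Real.goldenRatio_sq]
    have h5 : Real.sqrt 5 ≤ 2.24 := by
      rw [Real.sqrt_le_left (by norm_num)]
      norm_num
    unfold Real.goldenRatio
    linarith
  constructor
  · by_contra hc
    push Not at hc
    have : x ^ 2 ≤ 2.62 := by nlinarith [mul_nonneg hx hy]
    nlinarith
  · by_contra hc
    push Not at hc
    have : y ^ 2 ≤ 2.62 := by nlinarith [mul_nonneg hx hy]
    nlinarith

/-- the region with the parameters `s, t`. -/
private def RegE (C η : ℝ) : Set (R8 × ℝ × ℝ) :=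
  {z | 0 ≤ z.1.1.1 ∧ z.1.1.1 ≤ C ∧ |z.1.2.1| ≤ C ∧ η ≤ |z.1.1.1 * z.1.2.1| ∧
    0 ≤ z.2.1 ∧ z.2.1 ≤ 1 ∧ 0 ≤ z.2.2 ∧ z.2.2 ≤ 1 ∧
    z.1.1.2.1 = z.1.1.1 * (z.2.1 + z.2.2 * Real.goldenRatio) ∧
    z.1.2.2.1 = z.1.2.1 * (z.2.1 + z.2.2 * Real.goldenConj) ∧
    0 ≤ rX z.1.1 ∧ Bal (rP z.1.1) (rP z.1.2) ∧ Bal (rM z.1.1) (rM z.1.2) ∧
    4 * (rP z.1.1 * rP z.1.2) ^ 2 ≤ rM z.1.1 * rM z.1.2 ∧ rM z.1.1 * rM z.1.2 ≤ 1}

private theorem regE_image (C η : ℝ) : Reg C η = Prod.fst '' RegE C η := by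
  ext w
  constructor
  · rintro ⟨h1, h2, h3, h4, ⟨s, t, h5, h6, h7, h8, h9, h10⟩, h11, h12, h13, h14, h15⟩
    exact ⟨(w, s, t), ⟨h1, h2, h3, h4, h5, h6, h7, h8, h9, h10, h11, h12, h13, h14, h15⟩, rfl⟩
  · rintro ⟨⟨w', s, t⟩, ⟨h1, h2, h3, h4, h5, h6, h7, h8, h9, h10, h11, h12, h13, h14, h15⟩, rfl⟩
    exact ⟨h1, h2, h3, h4, ⟨s, t, h5, h6, h7, h8, h9, h10⟩, h11, h12, h13, h14, h15⟩

private theorem cP : Continuous rP := by unfold rP; fun_prop
private theorem cM : Continuous rM := by unfold rM; fun_prop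
private theorem cX : Continuous rX := by unfold rX; fun_prop

private theorem regE_closed (C η : ℝ) : IsClosed (RegE C η) := by
  have p1 : Continuous (fun z : R8 × ℝ × ℝ => rP z.1.1) := cP.comp (by fun_prop)
  have p2 : Continuous (fun z : R8 × ℝ × ℝ => rP z.1.2) := cP.comp (by fun_prop)
  have m1 : Continuous (fun z : R8 × ℝ × ℝ => rM z.1.1) := cM.comp (by fun_prop)
  have m2 : Continuous (fun z : R8 × ℝ × ℝ => rM z.1.2) := cM.comp (by fun_prop)
  have x1 : Continuous (fun z : R8 × ℝ × ℝ => rX z.1.1) := cX.comp (by fun_prop)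
  have hb : ∀ {f h : R8 × ℝ × ℝ → ℝ}, Continuous f → Continuous h →
      IsClosed {z | Bal (f z) (h z)} := by
    intro f h hf hh
    have : {z | Bal (f z) (h z)} = {z | 0 ≤ f z} ∩ ({z | 0 ≤ h z} ∩ ({z | f z ≤ g ^ 2 * h z} ∩
        {z | h z ≤ g ^ 2 * f z})) := by
      ext z
      simp [Bal]
    rw [this]
    exact (isClosed_le continuous_const hf).inter ((isClosed_le continuous_const hh).inter
      ((isClosed_le hf (continuous_const.mul hh)).inter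
        (isClosed_le hh (continuous_const.mul hf))))
  unfold RegE
  refine IsClosed.and (isClosed_le (by fun_prop) (by fun_prop)) ?_
  refine IsClosed.and (isClosed_le (by fun_prop) (by fun_prop)) ?_
  refine IsClosed.and (isClosed_le (by fun_prop) (by fun_prop)) ?_
  refine IsClosed.and (isClosed_le (by fun_prop) (by fun_prop)) ?_
  refine IsClosed.and (isClosed_le (by fun_prop) (by fun_prop)) ?_
  refine IsClosed.and (isClosed_le (by fun_prop) (by fun_prop)) ?_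
  refine IsClosed.and (isClosed_le (by fun_prop) (by fun_prop)) ?_
  refine IsClosed.and (isClosed_le (by fun_prop) (by fun_prop)) ?_
  refine IsClosed.and (isClosed_eq (by fun_prop) (by fun_prop)) ?_
  refine IsClosed.and (isClosed_eq (by fun_prop) (by fun_prop)) ?_
  refine IsClosed.and (isClosed_le (by fun_prop) x1) ?_
  refine IsClosed.and (hb p1 p2) ?_
  refine IsClosed.and (hb m1 m2) ?_
  refine IsClosed.and (isClosed_le (by fun_prop) (m1.mul m2)) ?_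
  exact isClosed_le (m1.mul m2) (by fun_prop)

private theorem regE_bdd (C η : ℝ) (hC : 0 < C) (hη : 0 < η) :
    ∃ M : ℝ, ∀ z ∈ RegE C η, |z.1.1.1| ≤ M ∧ |z.1.1.2.1| ≤ M ∧ |z.1.1.2.2.1| ≤ M ∧
      |z.1.1.2.2.2| ≤ M ∧ |z.1.2.1| ≤ M ∧ |z.1.2.2.1| ≤ M ∧ |z.1.2.2.2.1| ≤ M ∧
      |z.1.2.2.2.2| ≤ M ∧ |z.2.1| ≤ M ∧ |z.2.2| ≤ M := by
  set Bc := (9 * C ^ 2 + 2) * (C / η) with hBc
  set Bd := (6 + 54 * C ^ 3 + 9 * C ^ 2 * Bc) * (C / η) ^ 2 with hBd
  have hBc0 : 0 ≤ Bc := by positivity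
  have hBd0 : 0 ≤ Bd := by positivity
  refine ⟨3 * C + Bc + Bd + 1, ?_⟩
  rintro ⟨⟨⟨a1, b1, c1, d1⟩, ⟨a2, b2, c2, d2⟩⟩, s, t⟩ h
  obtain ⟨h1, h2, h3, h4, h5, h6, h7, h8, h9, h10, h11, h12, h13, h14, h15⟩ := h
  simp only at h1 h2 h3 h4 h5 h6 h7 h8 h9 h10 h11 h12 h13 h14 h15 ⊢
  have hg2 : Real.goldenRatio ≤ 2 := (Real.goldenRatio_lt_two).le
  have hg0 : 0 < Real.goldenRatio := Real.goldenRatio_pos
  have hgc0 : Real.goldenConj < 0 := Real.goldenConj_neg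
  have hgc1 : -1 < Real.goldenConj := Real.neg_one_lt_goldenConj
  have a1abs : |a1| ≤ C := by rw [abs_of_nonneg h1]; exact h2
  have a1low : η / C ≤ |a1| := by
    rw [div_le_iff₀ hC]
    rw [abs_mul] at h4
    nlinarith [abs_nonneg a1, abs_nonneg a2]
  have a2low : η / C ≤ |a2| := by
    rw [div_le_iff₀ hC]
    rw [abs_mul] at h4
    nlinarith [abs_nonneg a1, abs_nonneg a2]
  have b1abs : |b1| ≤ 3 * C := by
    rw [h9, abs_mul]
    have : |s + t * Real.goldenRatio| ≤ 3 := by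
      rw [abs_le]
      constructor <;> nlinarith
    calc |a1| * |s + t * Real.goldenRatio| ≤ C * 3 :=
          mul_le_mul a1abs this (abs_nonneg _) hC.le
      _ = 3 * C := by ring
  have b2abs : |b2| ≤ 3 * C := by
    rw [h10, abs_mul]
    have : |s + t * Real.goldenConj| ≤ 3 := by
      rw [abs_le]
      constructor <;> nlinarith
    calc |a2| * |s + t * Real.goldenConj| ≤ C * 3 :=
          mul_le_mul h3 this (abs_nonneg _) hC.le
      _ = 3 * C := by ring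
  have hP1 := h12.1
  have hP2 := h12.2.1
  have hM1 := h13.1
  have hM2 := h13.2.1
  have hPP : rP (a1, b1, c1, d1) * rP (a2, b2, c2, d2) ≤ 1 := by
    by_contra hc
    push Not at hc
    nlinarith
  obtain ⟨k1, k2⟩ := bal_bound _ _ h12 hPP
  obtain ⟨e1, e2⟩ := single C η a1 b1 c1 d1 hC hη a1abs a1low b1abs hP1 k1 hM1
  obtain ⟨e3, e4⟩ := single C η a2 b2 c2 d2 hC hη h3 a2low b2abs hP2 k2 hM2
  refine ⟨by linarith, by linarith, by linarith, by linarith, by linarith, by linarith,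
    by linarith, by linarith, ?_, ?_⟩
  · rw [abs_of_nonneg h5]; linarith
  · rw [abs_of_nonneg h7]; linarith

theorem cpt : CptStmt := by
  intro C η hη
  by_cases hC : 0 < C
  · rw [regE_image]
    refine IsCompact.image ?_ continuous_fst
    obtain ⟨M, hM⟩ := regE_bdd C η hC hη
    refine IsCompact.of_isClosed_subset (isCompact_Icc (a := ((((-M, -M, -M, -M) : ℝ × ℝ × ℝ × ℝ),
      ((-M, -M, -M, -M) : ℝ × ℝ × ℝ × ℝ)), (-M, -M))) (b := ((((M, M, M, M) : ℝ × ℝ × ℝ × ℝ),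
      ((M, M, M, M) : ℝ × ℝ × ℝ × ℝ)), (M, M)))) (regE_closed C η) ?_
    intro z hz
    obtain ⟨h1, h2, h3, h4, h5, h6, h7, h8, h9, h10⟩ := hM z hz
    rw [abs_le] at h1 h2 h3 h4 h5 h6 h7 h8 h9 h10
    exact ⟨⟨⟨⟨h1.1, h2.1, h3.1, h4.1⟩, ⟨h5.1, h6.1, h7.1, h8.1⟩⟩, ⟨h9.1, h10.1⟩⟩,
      ⟨⟨⟨h1.2, h2.2, h3.2, h4.2⟩, ⟨h5.2, h6.2, h7.2, h8.2⟩⟩, ⟨h9.2, h10.2⟩⟩⟩
  · have : Reg C η = ∅ := by
      ext w
      simp only [Set.mem_empty_iff_false, iff_false]
      rintro ⟨h1, h2, -, h4, -⟩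
      have : w.1.1 = 0 := by linarith
      rw [this, zero_mul, abs_zero] at h4
      linarith
    rw [this]
    exact isCompact_empty

end Pool.Agent.Leo4.H57
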