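import Pool.Agent.Leo4.Stmts

set_option autoImplicit false

open MeasureTheory Filter Topology
open scoped Pointwise

namespace Pool.Agent.Leo4.H57

open Pool.Agent.Leo4

private abbrev E4 : Type := ℝ × ℝ × ℝ × ℝ

private noncomputable def Lm (w : R8) : R8 :=
  (w.1 + Real.goldenRatio • w.2, w.1 + Real.goldenConj • w.2)

private noncomputable def Li (w : R8) : R8 :=
  (w.1 - Real.goldenRatio • ((Real.goldenRatio - Real.goldenConj)⁻¹ • (w.1 - w.2)),
    (Real.goldenRatio - Real.goldenConj)⁻¹ • (w.1 - w.2))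

private theorem gsub : Real.goldenRatio - Real.goldenConj = Real.sqrt 5 :=
  Real.goldenRatio_sub_goldenConj

private theorem gsub_ne : Real.goldenRatio - Real.goldenConj ≠ 0 := by
  rw [gsub]
  positivity

private theorem Li_Lm (w : R8) : Li (Lm w) = w := by
  unfold Li Lm
  have h : w.1 + Real.goldenRatio • w.2 - (w.1 + Real.goldenConj • w.2) =
      (Real.goldenRatio - Real.goldenConj) • w.2 := by
    rw [sub_smul]
    abel
  simp only [h, smul_smul, inv_mul_cancel₀ gsub_ne, one_smul]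
  rw [add_sub_cancel_right]

private theorem Lm_cont : Continuous Lm := by unfold Lm; fun_prop
private theorem Li_cont : Continuous Li := by unfold Li; fun_prop

private theorem haar2 : (volume : Measure (ℝ × ℝ)).IsAddHaarMeasure :=
  Measure.prod.instIsAddHaarMeasure (volume : Measure ℝ) (volume : Measure ℝ)

private theorem haar3 : (volume : Measure (ℝ × ℝ × ℝ)).IsAddHaarMeasure :=
  haveI := haar2
  Measure.prod.instIsAddHaarMeasure (volume : Measure ℝ) (volume : Measure (ℝ × ℝ))

private theorem haar4 : (volume : Measure E4).IsAddHaarMeasure :=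
  haveI := haar3
  Measure.prod.instIsAddHaarMeasure (volume : Measure ℝ) (volume : Measure (ℝ × ℝ × ℝ))

private theorem haar8 : (volume : Measure R8).IsAddHaarMeasure :=
  haveI := haar4
  Measure.prod.instIsAddHaarMeasure (volume : Measure E4) (volume : Measure E4)

private theorem map_Lm : Measure.map Lm (volume : Measure R8) =
    ENNReal.ofReal (1 / 25) • (volume : Measure R8) := by
  have := haar4
  have s1 : MeasurePreserving (fun p : E4 × E4 => (p.1, p.2 + Real.goldenRatio • p.1))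
      ((volume : Measure E4).prod (volume : Measure E4))
      ((volume : Measure E4).prod (volume : Measure E4)) := by
    refine MeasurePreserving.skew_product (f := fun x : E4 => x)
      (g := fun (a : E4) (x : E4) => x + Real.goldenRatio • a)
      (MeasurePreserving.id _) (by fun_prop) ?_
    exact Filter.Eventually.of_forall (fun a => (measurePreserving_add_right (volume : Measure E4) (Real.goldenRatio • a)).map_eq)
  have s2 : MeasurePreserving (fun p : E4 × E4 => (p.1, p.1 + p.2))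
      ((volume : Measure E4).prod (volume : Measure E4))
      ((volume : Measure E4).prod (volume : Measure E4)) := by
    refine MeasurePreserving.skew_product (f := fun x : E4 => x)
      (g := fun (a : E4) (x : E4) => a + x)
      (MeasurePreserving.id _) (by fun_prop) ?_
    exact Filter.Eventually.of_forall (fun a => (measurePreserving_add_left (volume : Measure E4) a).map_eq)
  have sw : MeasurePreserving (Prod.swap : E4 × E4 → E4 × E4)
      ((volume : Measure E4).prod (volume : Measure E4))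
      ((volume : Measure E4).prod (volume : Measure E4)) := Measure.measurePreserving_swap
  have s3 := sw.comp (s1.comp sw)
  have hr : (Real.goldenConj - Real.goldenRatio) ≠ 0 := by
    intro h
    exact gsub_ne (by linarith)
  have hd : Measure.map (Prod.map (fun x : E4 => x)
      (fun x : E4 => (Real.goldenConj - Real.goldenRatio) • x))
      ((volume : Measure E4).prod (volume : Measure E4)) =
      ENNReal.ofReal (1 / 25) • ((volume : Measure E4).prod (volume : Measure E4)) := by
    rw [← Measure.map_prod_map (f := fun x : E4 => x)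
      (g := fun x : E4 => (Real.goldenConj - Real.goldenRatio) • x) (volume : Measure E4)
      (volume : Measure E4) (by fun_prop) (by fun_prop), Measure.map_addHaar_smul _ hr]
    have h1 : |((Real.goldenConj - Real.goldenRatio) ^ Module.finrank ℝ E4)⁻¹| = 1 / 25 := by
      have h2 : Module.finrank ℝ E4 = 4 := by simp
      rw [h2]
      have h3 : (Real.goldenConj - Real.goldenRatio) ^ 4 = 25 := by
        have : (Real.goldenConj - Real.goldenRatio) ^ 2 = 5 := by
          have h5 := gsub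
          have : Real.goldenConj - Real.goldenRatio = - Real.sqrt 5 := by linarith
          rw [this, neg_sq, Real.sq_sqrt (by norm_num)]
        calc (Real.goldenConj - Real.goldenRatio) ^ 4
            = ((Real.goldenConj - Real.goldenRatio) ^ 2) ^ 2 := by ring
          _ = 25 := by rw [this]; norm_num
      rw [h3]
      norm_num
    rw [h1]
    have h4 : Measure.map (fun x : E4 => x) (volume : Measure E4) = volume := Measure.map_id'
    rw [h4, Measure.prod_smul_right]
  have e : Lm = (fun p : E4 × E4 => (p.1, p.1 + p.2)) ∘ ((Prod.map (fun x : E4 => x)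
      (fun x : E4 => (Real.goldenConj - Real.goldenRatio) • x)) ∘
      (Prod.swap ∘ ((fun p : E4 × E4 => (p.1, p.2 + Real.goldenRatio • p.1)) ∘ Prod.swap))) := by
    funext w
    simp only [Lm, Function.comp_apply, Prod.map, Prod.swap]
    refine Prod.ext rfl ?_
    simp only [sub_smul]
    abel
  have hvol : (volume : Measure R8) = (volume : Measure E4).prod (volume : Measure E4) := rfl
  rw [hvol, e, ← Measure.map_map s2.measurable, ← Measure.map_map (by fun_prop) s3.measurable,
    s3.map_eq, hd, Measure.map_smul, s2.map_eq]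
  · exact Measurable.comp (by fun_prop) s3.measurable

private theorem vol_pre (B : Set R8) (hB : MeasurableSet B) :
    volume (Lm ⁻¹' B) = ENNReal.ofReal (1 / 25) * volume B := by
  rw [← Measure.map_apply Lm_cont.measurable hB, map_Lm, Measure.smul_apply, smul_eq_mul]

private theorem pre_compact (B : Set R8) (hB : IsCompact B) : IsCompact (Lm ⁻¹' B) := by
  refine IsCompact.of_isClosed_subset (hB.image Li_cont) (hB.isClosed.preimage Lm_cont) ?_
  intro w hw
  exact ⟨Lm w, hw, Li_Lm w⟩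

private def coordsI (v : V) : (ℤ × ℤ × ℤ × ℤ) × (ℤ × ℤ × ℤ × ℤ) :=
  ((v.1.re, v.2.1.re, v.2.2.1.re, v.2.2.2.re), (v.1.im, v.2.1.im, v.2.2.1.im, v.2.2.2.im))

private def coords (v : V) : R8 :=
  (((v.1.re : ℝ), (v.2.1.re : ℝ), (v.2.2.1.re : ℝ), (v.2.2.2.re : ℝ)),
    ((v.1.im : ℝ), (v.2.1.im : ℝ), (v.2.2.1.im : ℝ), (v.2.2.2.im : ℝ)))

private theorem emb_eq (v : V) : emb v = Lm (coords v) := by
  unfold emb Lm coords e1 e2 ev
  ext <;> simp <;> ring

private theorem Lm_smul (t : ℝ) (w : R8) : Lm (t • w) = t • Lm w := by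
  unfold Lm
  ext <;> simp <;> ring

private def cell (q : ℝ) (v : V) : Set R8 :=
  (Set.Ico (v.1.re : ℝ) (v.1.re + q) ×ˢ Set.Ico (v.2.1.re : ℝ) (v.2.1.re + q) ×ˢ
    Set.Ico (v.2.2.1.re : ℝ) (v.2.2.1.re + q) ×ˢ Set.Ico (v.2.2.2.re : ℝ) (v.2.2.2.re + q)) ×ˢ
  (Set.Ico (v.1.im : ℝ) (v.1.im + q) ×ˢ Set.Ico (v.2.1.im : ℝ) (v.2.1.im + q) ×ˢ
    Set.Ico (v.2.2.1.im : ℝ) (v.2.2.1.im + q) ×ˢ Set.Ico (v.2.2.2.im : ℝ) (v.2.2.2.im + q))

private theorem cell_meas (q : ℝ) (v : V) : MeasurableSet (cell q v) := by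
  unfold cell
  exact (measurableSet_Ico.prod (measurableSet_Ico.prod (measurableSet_Ico.prod
    measurableSet_Ico))).prod (measurableSet_Ico.prod (measurableSet_Ico.prod
      (measurableSet_Ico.prod measurableSet_Ico)))

private theorem cell_vol (q : ℝ) (v : V) : volume (cell q v) = ENNReal.ofReal q ^ 8 := by
  unfold cell
  simp only [Measure.volume_eq_prod, Measure.prod_prod, Real.volume_Ico, add_sub_cancel_left]
  ring

private theorem int_eq (q : ℕ) [NeZero q] (n n' : ℤ) (h : (n : ZMod q) = (n' : ZMod q)) (w : ℝ)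
    (h1 : w ∈ Set.Ico (n : ℝ) (n + q)) (h2 : w ∈ Set.Ico (n' : ℝ) (n' + q)) : n = n' := by
  rw [ZMod.intCast_eq_intCast_iff_dvd_sub] at h
  have h3 : |n' - n| < q := by
    have a1 : (n' : ℝ) - n < q := by linarith [h1.1, h1.2, h2.1, h2.2]
    have a2 : (n : ℝ) - n' < q := by linarith [h1.1, h1.2, h2.1, h2.2]
    rw [abs_lt]
    constructor
    · have : ((n : ℝ) - n') = ((n - n' : ℤ) : ℝ) := by push_cast; ring
      rw [this] at a2
      have a3 : (n - n' : ℤ) < (q : ℤ) := by exact_mod_cast a2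
      linarith
    · have : ((n' : ℝ) - n) = ((n' - n : ℤ) : ℝ) := by push_cast; ring
      rw [this] at a1
      exact_mod_cast a1
  have := Int.eq_zero_of_abs_lt_dvd h h3
  linarith

private theorem cell_disj (q : ℕ) [NeZero q] (v v' : V) (h : resV q v = resV q v') (hne : v ≠ v') :
    Disjoint (cell q v) (cell q v') := by
  rw [Set.disjoint_left]
  intro w hw hw'
  apply hne
  unfold cell at hw hw'
  simp only [Set.mem_prod] at hw hw'
  obtain ⟨⟨a1, a2, a3, a4⟩, a5, a6, a7, a8⟩ := hw
  obtain ⟨⟨b1, b2, b3, b4⟩, b5, b6, b7, b8⟩ := hw'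
  unfold resV at h
  simp only [Prod.mk.injEq] at h
  obtain ⟨⟨c1, c5⟩, ⟨c2, c6⟩, ⟨c3, c7⟩, c4, c8⟩ := h
  have d1 := int_eq q _ _ c1 _ a1 b1
  have d2 := int_eq q _ _ c2 _ a2 b2
  have d3 := int_eq q _ _ c3 _ a3 b3
  have d4 := int_eq q _ _ c4 _ a4 b4
  have d5 := int_eq q _ _ c5 _ a5 b5
  have d6 := int_eq q _ _ c6 _ a6 b6
  have d7 := int_eq q _ _ c7 _ a7 b7
  have d8 := int_eq q _ _ c8 _ a8 b8
  refine Prod.ext (QuadraticAlgebra.ext d1 d5) (Prod.ext (QuadraticAlgebra.ext d2 d6)
    (Prod.ext (QuadraticAlgebra.ext d3 d7) (QuadraticAlgebra.ext d4 d8)))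

private theorem ico_dist (q a w : ℝ) (h : w ∈ Set.Ico a (a + q)) : dist w a ≤ q := by
  rw [Real.dist_eq, abs_le]
  constructor <;> linarith [h.1, h.2]

private theorem cell_dist (q : ℝ) (v : V) (w : R8) (h : w ∈ cell q v) :
    dist w (coords v) ≤ q := by
  unfold cell at h
  simp only [Set.mem_prod] at h
  obtain ⟨⟨a1, a2, a3, a4⟩, a5, a6, a7, a8⟩ := h
  unfold coords
  simp only [Prod.dist_eq]
  refine max_le (max_le (ico_dist _ _ _ a1) (max_le (ico_dist _ _ _ a2) (max_le
    (ico_dist _ _ _ a3) (ico_dist _ _ _ a4)))) (max_le (ico_dist _ _ _ a5) (max_le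
    (ico_dist _ _ _ a6) (max_le (ico_dist _ _ _ a7) (ico_dist _ _ _ a8))))

private theorem cell_count (B' : Set R8) (q : ℕ) [NeZero q] (t : ℝ) (ht : 0 < t) (κ) (A : Finset V)
    (hA : ∀ v ∈ A, resV q v = κ ∧ t⁻¹ • coords v ∈ B') :
    (A.card : ENNReal) * ENNReal.ofReal q ^ 8 ≤
      ENNReal.ofReal (t ^ 8) * volume (Metric.cthickening (q / t) B') := by
  have := haar8
  have h1 : volume (⋃ v ∈ A, cell (q : ℝ) v) = (A.card : ENNReal) * ENNReal.ofReal q ^ 8 := by
    rw [measure_biUnion_finset]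
    · simp only [cell_vol, Finset.sum_const, nsmul_eq_mul]
    · intro v hv v' hv' hne
      exact cell_disj q v v' ((hA v hv).1.trans (hA v' hv').1.symm) hne
    · intro v _
      exact cell_meas _ v
  rw [← h1]
  have h2 : (⋃ v ∈ A, cell (q : ℝ) v) ⊆ t • Metric.cthickening (q / t) B' := by
    intro w hw
    simp only [Set.mem_iUnion] at hw
    obtain ⟨v, hv, hw⟩ := hw
    refine ⟨t⁻¹ • w, ?_, ?_⟩
    · refine Metric.mem_cthickening_of_dist_le _ (t⁻¹ • coords v) _ _ (hA v hv).2 ?_
      rw [dist_smul₀, norm_inv, Real.norm_eq_abs, abs_of_pos ht]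
      have := cell_dist _ _ _ hw
      rw [div_eq_inv_mul]
      exact mul_le_mul_of_nonneg_left this (by positivity)
    · simp only [smul_smul, mul_inv_cancel₀ ht.ne', one_smul]
  refine (measure_mono h2).trans (le_of_eq ?_)
  rw [Measure.addHaar_smul]
  have h3 : Module.finrank ℝ R8 = 8 := by simp
  rw [h3, abs_of_pos (by positivity)]

private theorem coordsI_inj : Function.Injective coordsI := by
  intro v v' h
  unfold coordsI at h
  simp only [Prod.mk.injEq] at h
  obtain ⟨⟨d1, d2, d3, d4⟩, d5, d6, d7, d8⟩ := h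
  refine Prod.ext (QuadraticAlgebra.ext d1 d5) (Prod.ext (QuadraticAlgebra.ext d2 d6)
    (Prod.ext (QuadraticAlgebra.ext d3 d7) (QuadraticAlgebra.ext d4 d8)))

private theorem fin_set (R : ℝ) : {v : V | ‖coords v‖ ≤ R}.Finite := by
  set n : ℤ := ⌈R⌉ with hn
  have hf : (Set.Icc (((-n, -n, -n, -n), (-n, -n, -n, -n)) : (ℤ × ℤ × ℤ × ℤ) × (ℤ × ℤ × ℤ × ℤ))
    ((n, n, n, n), (n, n, n, n))).Finite := Set.finite_Icc _ _
  refine (hf.preimage coordsI_inj.injOn).subset ?_
  intro v hv
  have hv' : ‖coords v‖ ≤ R := hv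
  unfold coords at hv'
  simp only [Prod.norm_def, max_le_iff] at hv'
  obtain ⟨⟨a1, a2, a3, a4⟩, a5, a6, a7, a8⟩ := hv'
  have key : ∀ z : ℤ, ‖(z : ℝ)‖ ≤ R → -n ≤ z ∧ z ≤ n := by
    intro z hz
    rw [Real.norm_eq_abs, abs_le] at hz
    have h1 : R ≤ n := Int.le_ceil R
    constructor
    · have : (-(n : ℝ)) ≤ z := by linarith [hz.1]
      exact_mod_cast this
    · have : (z : ℝ) ≤ n := by linarith [hz.2]
      exact_mod_cast this
  have b1 := key _ a1
  have b2 := key _ a2
  have b3 := key _ a3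
  have b4 := key _ a4
  have b5 := key _ a5
  have b6 := key _ a6
  have b7 := key _ a7
  have b8 := key _ a8
  exact ⟨⟨⟨b1.1, b2.1, b3.1, b4.1⟩, ⟨b5.1, b6.1, b7.1, b8.1⟩⟩,
    ⟨⟨b1.2, b2.2, b3.2, b4.2⟩, ⟨b5.2, b6.2, b7.2, b8.2⟩⟩⟩

theorem ltu : LtuStmt := by
  intro B hB q _ S ε hε
  classical
  set B' := Lm ⁻¹' B with hB'def
  have hB' : IsCompact B' := pre_compact B hB
  have hvol : volume B' = ENNReal.ofReal (1 / 25) * volume B := vol_pre B hB.measurableSet
  have hvolR : (volume B').toReal = (volume B).toReal / 25 := by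
    rw [hvol, ENNReal.toReal_mul, ENNReal.toReal_ofReal (by norm_num)]
    ring
  have hq0 : (0 : ℝ) < q := by
    have := NeZero.pos q
    exact_mod_cast this
  have hBfin : volume B' ≠ ⊤ := hB'.measure_lt_top.ne
  have htend := tendsto_measure_cthickening_of_isCompact (μ := (volume : Measure R8)) hB'
  have htendR : Tendsto (fun r => (volume (Metric.cthickening r B')).toReal) (𝓝 0)
      (𝓝 (volume B').toReal) := (ENNReal.tendsto_toReal hBfin).comp htend
  set ε' := ε * (q : ℝ) ^ 8 / (S.card + 1) with hε'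
  have hε'0 : 0 < ε' := by positivity
  have hev := htendR.eventually (gt_mem_nhds (show (volume B').toReal < (volume B').toReal + ε' by
    linarith))
  obtain ⟨δ, hδ, hδ'⟩ := Metric.eventually_nhds_iff.1 hev
  refine ⟨q / (δ / 2), by positivity, ?_⟩
  intro t ht
  have ht0 : 0 < t := lt_of_lt_of_le (by positivity) ht
  have hqt : (q : ℝ) / t < δ := by
    rw [div_le_iff₀ (by positivity)] at ht
    rw [div_lt_iff₀ ht0]
    nlinarith
  have hcth : (volume (Metric.cthickening ((q : ℝ) / t) B')).toReal ≤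
      (volume B').toReal + ε' := by
    have h1 : dist ((q : ℝ) / t) 0 < δ := by
      rw [Real.dist_eq, sub_zero, abs_of_pos (by positivity)]
      exact hqt
    exact (hδ' h1).le
  have hmem : ∀ v : V, t⁻¹ • emb v ∈ B ↔ t⁻¹ • coords v ∈ B' := by
    intro v
    rw [emb_eq, ← Lm_smul]
    rfl
  obtain ⟨R, hR⟩ := hB'.isBounded.exists_norm_le
  have hfin : {v : V | resV q v ∈ S ∧ t⁻¹ • emb v ∈ B}.Finite := by
    refine (fin_set (t * R)).subset ?_
    rintro v ⟨-, hv⟩
    rw [hmem] at hv
    have h1 := hR _ hv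
    rw [norm_smul, norm_inv, Real.norm_eq_abs, abs_of_pos ht0, inv_mul_le_iff₀ ht0] at h1
    exact h1
  refine ⟨hfin, ?_⟩
  rw [Set.ncard_eq_toFinset_card _ hfin]
  set A := hfin.toFinset with hA
  have hAmem : ∀ v ∈ A, resV q v ∈ S ∧ t⁻¹ • coords v ∈ B' := by
    intro v hv
    rw [hA, Set.Finite.mem_toFinset] at hv
    exact ⟨hv.1, (hmem v).1 hv.2⟩
  have hsum := Finset.card_eq_sum_card_fiberwise (f := fun v : V => resV q v) (s := A) (t := S)
    (fun v hv => (hAmem v hv).1)
  have hcomp : IsCompact (Metric.cthickening ((q : ℝ) / t) B') := hB'.cthickening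
  have hctfin : volume (Metric.cthickening ((q : ℝ) / t) B') ≠ ⊤ := hcomp.measure_lt_top.ne
  have hone : ∀ κ ∈ S, ((A.filter (fun v => resV q v = κ)).card : ℝ) * (q : ℝ) ^ 8 ≤
      t ^ 8 * ((volume B').toReal + ε') := by
    intro κ _
    have h1 := cell_count B' q t ht0 κ (A.filter (fun v => resV q v = κ)) (by
      intro v hv
      rw [Finset.mem_filter] at hv
      exact ⟨hv.2, (hAmem v hv.1).2⟩)
    have h2 := ENNReal.toReal_mono (ENNReal.mul_ne_top ENNReal.ofReal_ne_top hctfin) h1
    rw [ENNReal.toReal_mul, ENNReal.toReal_mul, ENNReal.toReal_pow, ENNReal.toReal_natCast,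
      ENNReal.toReal_ofReal hq0.le, ENNReal.toReal_ofReal (by positivity)] at h2
    refine h2.trans ?_
    exact mul_le_mul_of_nonneg_left hcth (by positivity)
  have htot : (A.card : ℝ) * (q : ℝ) ^ 8 ≤ S.card * (t ^ 8 * ((volume B').toReal + ε')) := by
    rw [hsum]
    push_cast
    rw [Finset.sum_mul]
    calc ∑ κ ∈ S, ((A.filter (fun v => resV q v = κ)).card : ℝ) * (q : ℝ) ^ 8
        ≤ ∑ κ ∈ S, t ^ 8 * ((volume B').toReal + ε') := Finset.sum_le_sum hone
      _ = S.card * (t ^ 8 * ((volume B').toReal + ε')) := by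
          rw [Finset.sum_const, nsmul_eq_mul]
  have hq8 : (0 : ℝ) < (q : ℝ) ^ 8 := by positivity
  have h3 : (S.card : ℝ) * ε' / (q : ℝ) ^ 8 ≤ ε := by
    rw [hε', div_le_iff₀ hq8]
    have : (S.card : ℝ) * (ε * (q : ℝ) ^ 8 / (S.card + 1)) =
        (ε * (q : ℝ) ^ 8) * (S.card / (S.card + 1)) := by ring
    rw [this]
    have h4 : (S.card : ℝ) / (S.card + 1) ≤ 1 := by
      rw [div_le_one (by positivity)]
      linarith
    nlinarith [mul_pos hε hq8]
  calc (A.card : ℝ) = (A.card : ℝ) * (q : ℝ) ^ 8 / (q : ℝ) ^ 8 := by field_simp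
    _ ≤ S.card * (t ^ 8 * ((volume B').toReal + ε')) / (q : ℝ) ^ 8 := by gcongr
    _ = ((S.card : ℝ) / (q : ℝ) ^ 8 * (volume B').toReal +
        (S.card : ℝ) * ε' / (q : ℝ) ^ 8) * t ^ 8 := by ring
    _ ≤ ((S.card : ℝ) / (q : ℝ) ^ 8 * (volume B').toReal + ε) * t ^ 8 := by gcongr
    _ = ((S.card : ℝ) / (q : ℝ) ^ 8 * (volume B).toReal / 25 + ε) * t ^ 8 := by
        rw [hvolR]
        ring

end Pool.Agent.Leo4.H57
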